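import Mathlib

set_option autoImplicit false

namespace Pool.Agent.Results.MP_a94181_al.Neg

open Finset

abbrev ι (n : ℕ) := Fin n × Bool
abbrev E (n : ℕ) := {p : ι n × ι n // p.1.1 < p.2.1}
abbrev R (j : ℕ) := ZMod (2 * 2 ^ (j + 1))

@[ext] structure G (n j : ℕ) where
  e : ℤˣ
  v : ι n → R j
  z : E n → R j

variable {n j : ℕ}

def σ (e : ℤˣ) : R j := ((e : ℤ) : R j)

@[simp] lemma σ1 : σ 1 = (1 : R j) := by simp [σ]
@[simp] lemma σm : σ (-1) = (-1 : R j) := by simp [σ]
lemma σ_mul (e f : ℤˣ) : σ (e * f) = (σ e * σ f : R j) := by simp [σ]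
lemma σσ (e : ℤˣ) : (σ e * σ e : R j) = 1 := by rw [← σ_mul, Int.units_mul_self, σ1]

instance : Mul (G n j) := ⟨fun g h => ⟨g.e * h.e, fun a => g.v a + σ g.e * h.v a,
  fun p => g.z p + h.z p + g.v p.1.1 * (σ g.e * h.v p.1.2)⟩⟩
instance : One (G n j) := ⟨⟨1, 0, 0⟩⟩
instance : Inv (G n j) := ⟨fun g => ⟨g.e, fun a => -(σ g.e * g.v a),
  fun p => g.v p.1.1 * g.v p.1.2 - g.z p⟩⟩

@[simp] lemma mul_e (g h : G n j) : (g * h).e = g.e * h.e := rfl
@[simp] lemma mul_v (g h : G n j) (a) : (g * h).v a = g.v a + σ g.e * h.v a := rfl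
@[simp] lemma mul_z (g h : G n j) (p) :
    (g * h).z p = g.z p + h.z p + g.v p.1.1 * (σ g.e * h.v p.1.2) := rfl
@[simp] lemma one_e : (1 : G n j).e = 1 := rfl
@[simp] lemma one_v (a) : (1 : G n j).v a = 0 := rfl
@[simp] lemma one_z (p) : (1 : G n j).z p = 0 := rfl

instance : Group (G n j) := .ofLeftAxioms
  (fun g h k => by
    refine G.ext (mul_assoc ..) (funext fun a => ?_) (funext fun p => ?_)
    · simp only [mul_v, mul_e, σ_mul]; ring
    · simp only [mul_v, mul_e, mul_z, σ_mul]
      linear_combination (h.v p.1.1 * σ h.e * k.v p.1.2) * σσ (j := j) g.e)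
  (fun g => by ext <;> simp)
  (fun g => by
    refine G.ext (Int.units_mul_self _) (funext fun a => ?_) (funext fun p => ?_)
    · exact neg_add_cancel _
    · change g.v p.1.1 * g.v p.1.2 - g.z p + g.z p + -(σ g.e * g.v p.1.1) * (σ g.e * g.v p.1.2) = 0
      linear_combination (-g.v p.1.1 * g.v p.1.2) * σσ (j := j) g.e)

def eqv : G n j ≃ ℤˣ × (ι n → R j) × (E n → R j) :=
  ⟨fun g => (g.e, g.v, g.z), fun p => ⟨p.1, p.2.1, p.2.2⟩, fun _ => rfl, fun _ => rfl⟩

instance : Finite (G n j) := .of_equiv _ eqv.symm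

lemma card_G : Nat.card (G n j) = 2 ^ ((j + 2) * (2 * n + Fintype.card (E n)) + 1) := by
  rw [Nat.card_congr eqv]
  simp only [Nat.card_eq_fintype_card, Fintype.card_prod, Fintype.card_pi, prod_const, ZMod.card,
    card_univ, Fintype.card_fin, Fintype.card_bool, Fintype.card_units_int]
  rw [← pow_succ', ← pow_mul, ← pow_mul]
  ring

lemma cen {g : G n j} (h : g.e = 1) (h' : ∀ a, g.v a = 0) (k : G n j) : g * k = k * g := by
  ext <;> simp [h, h', add_comm]

lemma comm {g h : G n j} (c : g * h = h * g) (hg : g.e = 1) (hh : h.e = 1) {a b : ι n}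
    (hab : a.1 ≠ b.1) : g.v a * h.v b = h.v a * g.v b := by
  rcases lt_or_gt_of_ne hab with l | l
  · have := congrArg (·.z ⟨(a, b), l⟩) c
    simp only [mul_z, hg, hh, σ1] at this
    linear_combination this
  · have := congrArg (·.z ⟨(b, a), l⟩) c
    simp only [mul_z, hg, hh, σ1] at this
    linear_combination -this

lemma pw {g : G n j} (h : g.e = 1) (k : ℕ) : (g ^ k).e = 1 ∧ ∀ a, (g ^ k).v a = k * g.v a := by
  induction k with
  | zero => simp
  | succ k ih => simp [pow_succ, ih, h, add_mul]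

def s : G n j := ⟨-1, 0, 0⟩
def x (a : ι n) (c : R j) : G n j := ⟨1, Pi.single a c, 0⟩

lemma gen {H : Subgroup (G n j)} (hs : s ∈ H) (hx : ∀ a, x a 1 ∈ H) (g : G n j) : g ∈ H := by
  have h1 : ∀ a c, x a c ∈ H := fun a c => by
    obtain ⟨k, rfl⟩ := ZMod.natCast_zmod_surjective c
    induction k with
    | zero => exact (show x a ((0 : ℕ) : R j) = 1 by ext <;> simp [x]) ▸ H.one_mem
    | succ k ih =>
      convert H.mul_mem ih (hx a)
      ext b
      · simp [x]
      · simp [x, Pi.single_add]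
      · have : ¬(b.1.1 = a ∧ b.1.2 = a) := fun h => b.2.ne (by rw [h.1, h.2])
        by_cases h : b.1.1 = a <;> simp_all [x, Pi.single_apply]
  have h2 : ∀ z, (⟨1, 0, z⟩ : G n j) ∈ H := fun z => by
    induction z using Pi.single_induction with
    | zero => exact H.one_mem
    | add a b ha hb => convert H.mul_mem ha hb using 1; ext <;> simp
    | single p c =>
      have : (⟨1, 0, Pi.single p c⟩ : G n j) * (x p.1.2 1 * x p.1.1 c) = x p.1.1 c * x p.1.2 1 := by
        ext q
        · simp [x]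
        · simp [x, add_comm]
        · have : ¬(q.1.1 = p.1.2 ∧ q.1.2 = p.1.1) := fun h => p.2.not_gt (h.1 ▸ h.2 ▸ q.2)
          have e : q = p ↔ q.1.1 = p.1.1 ∧ q.1.2 = p.1.2 := by rw [Subtype.ext_iff, Prod.ext_iff]
          simp only [x, mul_z, mul_v, Pi.single_apply, e, σ1, Pi.zero_apply]
          split_ifs <;> simp_all
      exact (H.mul_mem_cancel_right (H.mul_mem (h1 ..) (h1 ..))).1
        (this ▸ H.mul_mem (h1 ..) (h1 ..))
  have h3 : ∀ v z, (⟨1, v, z⟩ : G n j) ∈ H := fun v => by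
    induction v using Pi.single_induction with
    | zero => exact h2
    | add a b ha hb =>
      intro z
      convert H.mul_mem (ha fun p => z p - a p.1.1 * b p.1.2) (hb 0) using 1
      ext <;> simp
    | single a c => intro z; convert H.mul_mem (h2 z) (h1 a c) using 1; ext <;> simp [x]
  rcases Int.units_eq_one_or g.e with h | h
  · convert h3 g.v g.z
  · convert H.mul_mem (h3 g.v g.z) hs
    ext <;> simp [s, h]

def q : R j := ((2 ^ (j + 1) : ℕ) : R j)

lemma q2 : 2 * (q : R j) = 0 := by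
  have := ZMod.natCast_self (2 * 2 ^ (j + 1))
  rwa [Nat.cast_mul, Nat.cast_two] at this

lemma q0 : (q : R j) ≠ 0 := fun h => by
  have := Nat.le_of_dvd (by positivity) ((ZMod.natCast_eq_zero_iff _ _).1 h)
  have : 0 < 2 ^ (j + 1) := by positivity
  omega

lemma dich (c : R j) : q * c = 0 ∨ (q * c = q ∧ IsUnit c) := by
  obtain ⟨k, rfl⟩ := ZMod.natCast_zmod_surjective c
  rcases k.even_or_odd' with ⟨m, rfl | rfl⟩
  · left; push_cast; linear_combination (m : R j) * q2
  · refine .inr ⟨by push_cast; linear_combination (m : R j) * q2, (ZMod.isUnit_iff_coprime _ _).2 ?_⟩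
    rw [← pow_succ']
    exact Nat.Coprime.pow_right _ (Nat.coprime_two_right.2 (odd_two_mul_add_one m))

lemma hb {c d : R j} (h : 2 * c = 2 * d) (h' : c.val < 2 ^ (j + 1) ↔ d.val < 2 ^ (j + 1)) : c = d := by
  have h1 : 2 * c.val ≡ 2 * d.val [MOD 2 * 2 ^ (j + 1)] :=
    (ZMod.natCast_eq_natCast_iff _ _ _).1 (by simpa using h)
  have h2 := Nat.ModEq.mul_left_cancel' two_ne_zero h1
  have hc := c.val_lt
  have hd := d.val_lt
  refine ZMod.val_injective _ ?_
  clear h h1
  generalize c.val = c, d.val = d at *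
  generalize 2 ^ (j + 1) = N at *
  by_cases l : c < N
  · exact Nat.ModEq.eq_of_lt_of_lt h2 l (h'.1 l)
  · have l' := mt h'.2 l
    have : c - N = d - N := Nat.ModEq.eq_of_lt_of_lt (Nat.ModEq.add_right_cancel' N
      (by rwa [Nat.sub_add_cancel (by omega), Nat.sub_add_cancel (by omega)])) (by omega) (by omega)
    omega

variable (hn : 2 ≤ n) (α : MulAut (G n j))
include hn

lemma key {g : G n j} (h : g.e = 1) {a : ι n} (ha : g.v a = 1) :
    (α g).e = 1 ∧ ∃ b, q * (α g).v b ≠ 0 := by
  have nc : ¬∀ k, α g ^ 2 ^ (j + 1) * k = k * α g ^ 2 ^ (j + 1) := fun c => by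
    have : Nontrivial (Fin n) := Fin.nontrivial_iff_two_le.2 hn
    obtain ⟨b, hb⟩ := exists_ne a.1
    have c' := c (α (x (b, true) 1))
    rw [← map_pow, ← map_mul, ← map_mul, α.apply_eq_iff_eq] at c'
    have := comm c' (pw h _).1 rfl (a := a) (b := (b, true)) hb.symm
    rw [(pw h _).2, ha] at this
    have ne : a ≠ (b, true) := fun e => hb (e ▸ rfl)
    exact q0 (by simpa [x, q, ne] using this)
  have e : (α g).e = 1 := (Int.units_eq_one_or _).resolve_right fun e => nc fun k => by
    rw [pow_succ', pow_mul]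
    exact (Commute.pow_left (cen (by simp [sq, e]) (by simp [sq, e]) k) _).eq
  refine ⟨e, by_contra fun c => nc (cen (pw e _).1 fun b => ?_)⟩
  rw [(pw e _).2]
  exact not_not.1 (not_exists.1 c b)

lemma se : (α s).e = -1 := (Int.units_eq_one_or _).resolve_left fun e => by
  let H : Subgroup (G n j) :=
    { carrier := {g | (α g).e = 1}
      mul_mem' := fun {a b} ha hb => by simp_all
      one_mem' := by simp
      inv_mem' := fun {a} ha => by rw [Set.mem_setOf_eq, map_inv]; exact ha }
  have := gen (H := H) e (fun a => (key hn α rfl (a := a) (by simp [x])).1) (α.symm s)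
  simp [H, s] at this

lemma supp (a : ι n) : ∃ k, ∀ d : ι n, d.1 ≠ k → (α (x a 1)).v d = 0 := by
  let a' : ι n := (a.1, !a.2)
  have ne : a ≠ a' := fun h => by simpa [a'] using congrArg Prod.snd h
  obtain ⟨e1, b, h1⟩ := key hn α (g := x a 1) rfl (a := a) (by simp [x])
  obtain ⟨e2, b2, h2⟩ := key hn α (g := x a' 1) rfl (a := a') (by simp [x])
  obtain ⟨-, b3, h3⟩ := key hn α (g := x a 1 * x a' 1) rfl (a := a) (by simp [x, ne])
  have c : α (x a 1) * α (x a' 1) = α (x a' 1) * α (x a 1) := by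
    rw [← map_mul, ← map_mul]
    congr 1
    ext p
    · rfl
    · simp [x, add_comm]
    · have := p.2.ne
      simp only [x, mul_z, Pi.single_apply]
      split_ifs <;> simp_all [a']
  rw [map_mul, mul_v, e1, σ1] at h3
  have hc := fun a b => comm c e1 e2 (a := a) (b := b)
  generalize (α (x a 1)).v = u at *
  generalize (α (x a' 1)).v = w at *
  obtain ⟨c, hu⟩ : ∃ c, IsUnit (u b * w c - w b * u c) := by
    by_contra! hh
    have k := fun c => (dich _).resolve_right fun h => hh c h.2
    have hb := ((dich _).resolve_left h1).1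
    rcases dich (w b) with h | ⟨h, -⟩
    · exact h2 (by linear_combination k b2 - w b2 * hb + u b2 * h)
    · exact h3 (by linear_combination k b3 - w b3 * hb + u b3 * h + u b3 * q2)
  have e : b.1 = c.1 := by_contra fun h => by
    rw [hc b c h, sub_self, isUnit_zero_iff] at hu
    exact q0 (by simpa using congrArg (q * ·) hu.symm)
  refine ⟨b.1, fun d hd => hu.mul_left_eq_zero.1 ?_⟩
  linear_combination u b * hc d c (e ▸ hd) - u c * hc d b hd

lemma card_Aut : Nat.card (MulAut (G n j)) ≤ (2 ^ (j + 2)) ^ (6 * n) *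
    (n ^ (2 * n) * 2 ^ (Fintype.card (E n) * (2 * n + 1))) := by
  classical
  choose k hk using fun α : MulAut (G n j) => supp hn α
  let y : Option (ι n) → G n j := fun o => o.elim s (x · 1)
  let Φ : MulAut (G n j) → (ι n → R j) × (ι n → Fin n × (Bool → R j)) × (Option (ι n) → E n → Prop) :=
    fun α => ((α s).v, fun a => (k α a, fun t => (α (x a 1)).v (k α a, t)),
      fun o p => ((α (y o)).z p).val < 2 ^ (j + 1))
  have h1 : ∀ (α : MulAut (G n j)) p, 2 * (α s).z p = (α s).v p.1.1 * (α s).v p.1.2 := fun α p => by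
    have := congrArg (·.z p) (show α s * α s = 1 by
      rw [← map_mul, α.map_eq_one_iff]; ext <;> simp [s])
    simp only [mul_z, se hn, σm, one_z] at this
    linear_combination this
  have e1 := fun (α : MulAut (G n j)) a => (key hn α (g := x a 1) rfl (a := a) (by simp [x])).1
  have h2 : ∀ (α : MulAut (G n j)) a p, 2 * (α (x a 1)).z p = -2 * (α s).z p - 2 * (α (x a 1)).v p.1.1 *
      (α s).v p.1.2 + ((α (x a 1)).v p.1.1 + (α s).v p.1.1) * ((α (x a 1)).v p.1.2 + (α s).v p.1.2) := by
    intro α a p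
    have := congrArg (·.z p) (show α (x a 1) * α s * (α (x a 1) * α s) = 1 by
      rw [← map_mul, ← map_mul, α.map_eq_one_iff]
      ext b
      · simp [s, x]
      · simp [s, x]
      · have : ¬(b.1.1 = a ∧ b.1.2 = a) := fun h => b.2.ne (by rw [h.1, h.2])
        by_cases h : b.1.1 = a <;> simp_all [s, x, Pi.single_apply])
    simp only [mul_z, mul_v, mul_e, se hn, e1, σm, σ1, one_z, one_mul] at this
    linear_combination this
  have inj : Function.Injective Φ := fun α β h => by
    obtain ⟨a1, a2, a3⟩ : _ ∧ _ ∧ _ := by simpa only [Φ, Prod.mk.injEq] using h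
    have hs : α s = β s := G.ext (by rw [se hn, se hn]) a1 (funext fun p =>
      hb (by rw [h1, h1, a1]) (congrFun₂ a3 none p).to_iff)
    have hx : ∀ a, α (x a 1) = β (x a 1) := fun a => by
      obtain ⟨b1, b2⟩ := Prod.ext_iff.1 (congrFun a2 a)
      simp only at b1 b2
      have hv : (α (x a 1)).v = (β (x a 1)).v := funext fun ⟨d, t⟩ => by
        by_cases hd : d = k α a
        · have := congrFun b2 t
          rwa [← b1, ← hd] at this
        · rw [hk α a _ hd, hk β a _ (b1 ▸ hd)]
      exact G.ext (by rw [e1, e1]) hv (funext fun p =>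
        hb (by rw [h2, h2, hs, hv]) (congrFun₂ a3 (some a) p).to_iff)
    exact MulEquiv.ext fun g => gen (H := α.toMonoidHom.eqLocus β.toMonoidHom) hs hx g
  refine (Nat.card_le_card_of_injective Φ inj).trans_eq ?_
  simp only [Nat.card_prod, Nat.card_fun, Nat.card_zmod, Nat.card_eq_fintype_card (α := Fin n),
    Nat.card_eq_fintype_card (α := Bool), Nat.card_eq_fintype_card (α := Prop),
    Nat.card_eq_fintype_card (α := E n), Nat.card_eq_fintype_card (α := Option (ι n)),
    Fintype.card_prod, Fintype.card_fin, Fintype.card_bool, Fintype.card_prop, Fintype.card_option]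
  rw [← pow_succ']
  generalize 2 ^ (j + 1 + 1) = M
  ring

omit hn α

lemma card_E (k : ℕ) : k * k ≤ Fintype.card (E (k + k)) := by
  simpa using Fintype.card_le_of_injective (fun p : Fin k × Fin k =>
    (⟨((p.1.castAdd k, true), (p.2.natAdd k, true)), by
      simp only [Fin.lt_def, Fin.val_castAdd, Fin.val_natAdd]; omega⟩ : E (k + k)))
    fun p p' h => by simpa [Prod.ext_iff, Fin.ext_iff] using h

theorem result (a : ℝ) (ha : 0 < a) : ∃ (G : Type) (_ : Group G), Finite G ∧ Group.IsNilpotent G ∧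
    (Nat.card (MulAut G) : ℝ) < (Nat.totient (Nat.card G) : ℝ) ^ a := by
  obtain ⟨k, hk⟩ := exists_nat_gt (13 / a)
  have k1 : 1 ≤ k := Nat.cast_pos.1 ((by positivity : (0 : ℝ) < 13 / a).trans hk)
  rw [div_lt_iff₀ ha] at hk
  let r := Fintype.card (E (k + k))
  let j := (k + k) ^ (2 * (k + k)) * 2 ^ (r * (2 * (k + k) + 1))
  refine ⟨G (k + k) j, inferInstance, inferInstance,
    (IsPGroup.of_card (p := 2) card_G).isNilpotent, ?_⟩
  rw [card_G, Nat.totient_prime_pow_succ Nat.prime_two]
  have h1 : Nat.card (MulAut (G (k + k) j)) < (2 ^ (j + 2)) ^ (13 * k) :=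
    (card_Aut (by omega)).trans_lt (by
      rw [show 13 * k = 6 * (k + k) + k by ring, pow_add (2 ^ (j + 2))]
      gcongr
      exact (Nat.lt_two_pow_self.trans_le (Nat.pow_le_pow_right two_pos (Nat.le_add_right j 2))).trans_le
        (Nat.le_self_pow (by omega) _))
  refine (Nat.cast_lt.2 h1).trans_le ?_
  have := (Nat.cast_le (α := ℝ)).2 (card_E k)
  push_cast at this ⊢
  rw [mul_one, ← pow_mul, ← Real.rpow_natCast, ← Real.rpow_natCast, ← Real.rpow_mul two_pos.le]
  refine Real.rpow_le_rpow_of_exponent_le one_le_two ?_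
  push_cast
  rw [mul_assoc]
  refine mul_le_mul_of_nonneg_left ?_ (by positivity)
  have : (1 : ℝ) ≤ k := by exact_mod_cast k1
  nlinarith

end Pool.Agent.Results.MP_a94181_al.Neg
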